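import Pool.Agent.Y272.GA.Stm

/-!
# Perturbation of finitely many iterates
-/

set_option autoImplicit false

open Set Filter Metric MeasureTheory

namespace Pool.Agent.Y948.GA

open Pool.Agent.TH279.MD Pool.Agent.Y298.SH Pool.Agent.Y272.GA

/-- the iterates as a function of the coefficients and of the point -/
def Ph (d n : ℕ) (p : (Fin (d + 1) → ℂ) × ℂ) : ℂ := (FF d p.1)^[n] p.2

theorem Ph_succ (d n : ℕ) : Ph d (n + 1) = fun p : (Fin (d + 1) → ℂ) × ℂ =>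
    Ph d n p ^ d + ∑ i : Fin (d + 1), p.1 i * Ph d n p ^ (i : ℕ) := by
  funext p
  unfold Ph
  rw [Function.iterate_succ_apply']
  rfl

theorem Ph_contDiff (d n : ℕ) : ContDiff ℂ 2 (Ph d n) := by
  induction n with
  | zero => exact contDiff_snd
  | succ n ih =>
    rw [Ph_succ]
    refine (ih.pow d).add (ContDiff.sum fun i _ => ?_)
    exact ((contDiff_apply ℂ ℂ i).comp contDiff_fst).mul (ih.pow _)

theorem FF_ee' (d : ℕ) (c : ℂ) : FF d (ee d c) = f d c := by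
  funext z
  unfold FF f ee
  congr 1
  rw [Finset.sum_eq_single (0 : Fin (d + 1))]
  · simp
  · intro b _ hb
    rw [Pi.single_eq_of_ne hb, zero_mul]
  · intro h
    exact absurd (Finset.mem_univ _) h

theorem norm_ee' (d : ℕ) (c : ℂ) : ‖ee d c‖ ≤ ‖c‖ := by
  unfold ee
  rw [pi_norm_le_iff_of_nonneg (norm_nonneg c)]
  intro i
  by_cases hi : i = 0
  · subst hi
    rw [Pi.single_eq_same]
  · rw [Pi.single_eq_of_ne hi, norm_zero]
    exact norm_nonneg c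

theorem one_le_Kd (d : ℕ) : 1 ≤ Kd d := by
  unfold Kd
  have h1 : (1 : ℝ) ≤ (d : ℝ) + 1 := by
    have : (0 : ℝ) ≤ d := Nat.cast_nonneg d
    linarith
  have h2 : (1 : ℝ) ≤ ((d : ℝ) + 1) ^ 3 := one_le_pow₀ h1
  have h3 : (1 : ℝ) ≤ 4 ^ d := one_le_pow₀ (by norm_num)
  calc (1 : ℝ) = 1 * 1 := (mul_one 1).symm
    _ ≤ ((d : ℝ) + 1) ^ 3 * 4 ^ d := mul_le_mul h2 h3 zero_le_one (by linarith)

/-- the derivative with respect to the point -/
theorem deriv_Ph (d n : ℕ) (a : Fin (d + 1) → ℂ) (w : ℂ) :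
    deriv ((FF d a)^[n]) w = fderiv ℂ (Ph d n) (a, w) (0, 1) := by
  have h1 : HasFDerivAt (Ph d n) (fderiv ℂ (Ph d n) (a, w)) (a, w) :=
    (((Ph_contDiff d n).differentiable (by norm_num)) (a, w)).hasFDerivAt
  have h2 : HasDerivAt (fun z : ℂ => (a, z)) ((0 : Fin (d + 1) → ℂ), (1 : ℂ)) w :=
    (hasDerivAt_const w a).prodMk (hasDerivAt_id w)
  have h3 := h1.comp_hasDerivAt w h2
  exact h3.deriv

/-- the derivative along a curve -/
theorem deriv_GG (d n : ℕ) (γ : ℂ → Fin (d + 1) → ℂ) (w : ℂ) (hγ : DifferentiableAt ℂ γ w) :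
    deriv (GG d γ n) w = fderiv ℂ (Ph d n) (γ w, w) (deriv γ w, 1) := by
  have h1 : HasFDerivAt (Ph d n) (fderiv ℂ (Ph d n) (γ w, w)) (γ w, w) :=
    (((Ph_contDiff d n).differentiable (by norm_num)) (γ w, w)).hasFDerivAt
  have h2 : HasDerivAt (fun z : ℂ => (γ z, z)) (deriv γ w, (1 : ℂ)) w :=
    hγ.hasDerivAt.prodMk (hasDerivAt_id w)
  have h3 : HasDerivAt (Ph d n ∘ fun z : ℂ => (γ z, z))
      (fderiv ℂ (Ph d n) (γ w, w) (deriv γ w, 1)) w :=
    HasFDerivAt.comp_hasDerivAt (f := fun z : ℂ => (γ z, z)) w h1 h2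
  exact h3.deriv

/-- the constants for one iterate -/
theorem exists_const (d n : ℕ) : ∃ K : ℝ, 0 ≤ K ∧
    (∀ x ∈ closedBall (0 : (Fin (d + 1) → ℂ) × ℂ) 4,
      ∀ y ∈ closedBall (0 : (Fin (d + 1) → ℂ) × ℂ) 4, ‖Ph d n x - Ph d n y‖ ≤ K * ‖x - y‖) ∧
    (∀ x ∈ closedBall (0 : (Fin (d + 1) → ℂ) × ℂ) 4,
      ∀ y ∈ closedBall (0 : (Fin (d + 1) → ℂ) × ℂ) 4,
        ‖fderiv ℂ (Ph d n) x - fderiv ℂ (Ph d n) y‖ ≤ K * ‖x - y‖) ∧
    (∀ x ∈ closedBall (0 : (Fin (d + 1) → ℂ) × ℂ) 4, ‖fderiv ℂ (Ph d n) x‖ ≤ K) := by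
  have hK : IsCompact (closedBall (0 : (Fin (d + 1) → ℂ) × ℂ) 4) := isCompact_closedBall 0 4
  have hC : Convex ℝ (closedBall (0 : (Fin (d + 1) → ℂ) × ℂ) 4) := convex_closedBall 0 4
  have h1 : ContDiff ℝ 2 (Ph d n) := (Ph_contDiff d n).restrict_scalars ℝ
  have h2 : ContDiff ℂ 1 (fderiv ℂ (Ph d n)) := (Ph_contDiff d n).fderiv_right (by norm_num)
  have h3 : ContDiff ℝ 1 (fderiv ℂ (Ph d n)) := h2.restrict_scalars ℝ
  obtain ⟨K₁, hK₁⟩ := h1.contDiffOn.exists_lipschitzOnWith (by norm_num) hC hK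
  obtain ⟨K₂, hK₂⟩ := h3.contDiffOn.exists_lipschitzOnWith (by norm_num) hC hK
  obtain ⟨K₃, hK₃⟩ := hK.exists_bound_of_continuousOn h2.continuous.continuousOn
  have e1 : (0 : ℝ) ≤ K₁ := K₁.2
  have e2 : (0 : ℝ) ≤ K₂ := K₂.2
  have e3 : 0 ≤ K₃ := (norm_nonneg _).trans (hK₃ 0 (mem_closedBall_self (by norm_num)))
  refine ⟨K₁ + K₂ + K₃, by positivity, fun x hx y hy => ?_, fun x hx y hy => ?_,
    fun x hx => ?_⟩
  · have h4 := hK₁.dist_le_mul x hx y hy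
    rw [dist_eq_norm, dist_eq_norm] at h4
    exact h4.trans (mul_le_mul_of_nonneg_right (by linarith) (norm_nonneg _))
  · have h4 := hK₂.dist_le_mul x hx y hy
    rw [dist_eq_norm, dist_eq_norm] at h4
    exact h4.trans (mul_le_mul_of_nonneg_right (by linarith) (norm_nonneg _))
  · exact (hK₃ x hx).trans (by linarith)

theorem t : S_PE := by
  intro d N _
  choose K hK0 hK1 hK2 hK3 using fun n => exists_const d n
  set C : ℝ := 1 + 2 * ∑ n ∈ Finset.range (N + 1), K n with hCdef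
  have hsum : 0 ≤ ∑ n ∈ Finset.range (N + 1), K n := Finset.sum_nonneg fun n _ => hK0 n
  refine ⟨C, by linarith, ?_⟩
  intro c₁ r κ u T γ hc hr0 hr1 hγ n hn w hw hw4
  have hKn : K n ≤ ∑ n ∈ Finset.range (N + 1), K n :=
    Finset.single_le_sum (f := K) (fun i _ => hK0 i) (Finset.mem_range.2 (by omega))
  have hKd := one_le_Kd d
  have hnear : ‖γ w - ee d c₁‖ ≤ r := by
    have h1 := hγ.near w hw
    have h2 := norm_nonneg (γ w - ee d c₁)
    nlinarith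
  have hslow : ‖deriv γ w‖ ≤ κ := by
    have h1 := hγ.slow w hw
    have h2 := norm_nonneg (deriv γ w)
    nlinarith
  have hκ : 0 ≤ κ := (norm_nonneg _).trans hslow
  have hee : ‖ee d c₁‖ ≤ 2 := (norm_ee' d c₁).trans hc
  have hγ4 : ‖γ w‖ ≤ 4 := by
    have h1 := norm_add_le (γ w - ee d c₁) (ee d c₁)
    rw [sub_add_cancel] at h1
    linarith
  have hx : ((γ w, w) : (Fin (d + 1) → ℂ) × ℂ) ∈ closedBall (0 : (Fin (d + 1) → ℂ) × ℂ) 4 := by
    rw [mem_closedBall_zero_iff, Prod.norm_def]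
    exact max_le hγ4 hw4
  have hy : ((ee d c₁, w) : (Fin (d + 1) → ℂ) × ℂ) ∈
      closedBall (0 : (Fin (d + 1) → ℂ) × ℂ) 4 := by
    rw [mem_closedBall_zero_iff, Prod.norm_def]
    exact max_le (hee.trans (by norm_num)) hw4
  have hxy : ‖((γ w, w) : (Fin (d + 1) → ℂ) × ℂ) - (ee d c₁, w)‖ ≤ r := by
    rw [Prod.mk_sub_mk, sub_self, Prod.norm_def]
    refine max_le hnear ?_
    simpa using hr0
  have e1 : ‖Ph d n (γ w, w) - Ph d n (ee d c₁, w)‖ ≤ K n * r :=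
    (hK1 n _ hx _ hy).trans (mul_le_mul_of_nonneg_left hxy (hK0 n))
  have e2 : ‖fderiv ℂ (Ph d n) (γ w, w) - fderiv ℂ (Ph d n) (ee d c₁, w)‖ ≤ K n * r :=
    (hK2 n _ hx _ hy).trans (mul_le_mul_of_nonneg_left hxy (hK0 n))
  have e3 := hK3 n _ hx
  have hd : DifferentiableAt ℂ γ w := (hγ.hol w hw).differentiableAt (isOpen_ball.mem_nhds hw)
  have g1 : GG d γ n w - (f d c₁)^[n] w = Ph d n (γ w, w) - Ph d n (ee d c₁, w) := by
    unfold GG Ph
    rw [FF_ee']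
  have g2 : DD d γ n w - deriv ((f d c₁)^[n]) w =
      (fderiv ℂ (Ph d n) (γ w, w) - fderiv ℂ (Ph d n) (ee d c₁, w)) (0, 1) := by
    unfold DD
    rw [deriv_Ph, ← FF_ee', deriv_Ph]
    rfl
  have g3 : deriv (GG d γ n) w - DD d γ n w =
      fderiv ℂ (Ph d n) (γ w, w) (deriv γ w, 0) := by
    unfold DD
    rw [deriv_Ph, deriv_GG d n γ w hd, ← map_sub]
    congr 1
    rw [Prod.mk_sub_mk, sub_zero, sub_self]
  have hn01 : ‖((0 : Fin (d + 1) → ℂ), (1 : ℂ))‖ ≤ 1 := by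
    rw [Prod.norm_def]
    refine max_le ?_ ?_
    · simp
    · simp
  have hn02 : ‖((deriv γ w : Fin (d + 1) → ℂ), (0 : ℂ))‖ ≤ κ := by
    rw [Prod.norm_def]
    refine max_le hslow ?_
    simpa using hκ
  have f2 : ‖DD d γ n w - deriv ((f d c₁)^[n]) w‖ ≤ K n * r := by
    rw [g2]
    refine (ContinuousLinearMap.le_opNorm _ _).trans ?_
    calc _ ≤ (K n * r) * 1 := mul_le_mul e2 hn01 (norm_nonneg _) (mul_nonneg (hK0 n) hr0)
      _ = K n * r := mul_one _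
  have f3 : ‖deriv (GG d γ n) w - DD d γ n w‖ ≤ K n * κ := by
    rw [g3]
    refine (ContinuousLinearMap.le_opNorm _ _).trans ?_
    exact mul_le_mul e3 hn02 (norm_nonneg _) (hK0 n)
  have hKC : K n ≤ C := by linarith
  have hCr : K n * r ≤ C * r := mul_le_mul_of_nonneg_right hKC hr0
  refine ⟨?_, ?_, f2.trans hCr⟩
  · rw [g1]
    exact e1.trans hCr
  · have h9 := norm_add_le (deriv (GG d γ n) w - DD d γ n w)
      (DD d γ n w - deriv ((f d c₁)^[n]) w)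
    rw [sub_add_sub_cancel] at h9
    have hCκ : K n * κ ≤ C * κ := mul_le_mul_of_nonneg_right hKC hκ
    linarith

end Pool.Agent.Y948.GA
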